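import Mathlib

/-!
# Zero-free region for characteristic polynomials of vector configurations

`W` a finite dimensional vector space over a field `K`, `a : ι → W` a family of vectors.  If every
nonzero vector of the submodule `V` is detected by a linear functional from a family `P`, each
member of which is nonzero on at most `k` of the vectors `a j`, `j ∈ E`, then the characteristic
polynomial of the configuration does not vanish for `|q| ≥ 2 ^ (k + 1)`.
-/

set_option autoImplicit false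

namespace Pool.Agent.H157R2.Mat

open Module Submodule

variable {K W ι : Type*} [Field K] [AddCommGroup W] [Module K W] [FiniteDimensional K W]
  [DecidableEq ι]

/-- span of the vectors indexed by `X` -/
noncomputable def sp (K : Type*) {W ι : Type*} [Field K] [AddCommGroup W] [Module K W]
    (a : ι → W) (X : Finset ι) : Submodule K W := span K (a '' (X : Set ι))

/-- the basic sum -/
noncomputable def Phi (a : ι → W) (q : ℂ) (V : Submodule K W) (E : Finset ι)
    (U : Submodule K W) (g : Submodule K W → ℂ) : ℂ :=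
  ∑ X ∈ E.powerset, (-1 : ℂ) ^ X.card * q ^ (finrank K V - finrank K ↥(sp K a X ⊔ U)) *
    g (sp K a X ⊓ U)

omit [FiniteDimensional K W] in
lemma sp_union (a : ι → W) (X Y : Finset ι) : sp K a (X ∪ Y) = sp K a X ⊔ sp K a Y := by
  unfold sp
  rw [Finset.coe_union, Set.image_union, span_union]

omit [FiniteDimensional K W] [DecidableEq ι] in
lemma sp_empty (a : ι → W) : sp K a ∅ = ⊥ := by
  unfold sp
  simp

omit [FiniteDimensional K W] [DecidableEq ι] in
lemma sp_le {a : ι → W} {X : Finset ι} {V : Submodule K W} (h : ∀ j ∈ X, a j ∈ V) :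
    sp K a X ≤ V := by
  unfold sp
  rw [span_le]
  rintro _ ⟨j, hj, rfl⟩
  exact h j hj

lemma finrank_inf_ker (φ : W →ₗ[K] K) (Y : Submodule K W) (h : ¬ Y ≤ LinearMap.ker φ) :
    finrank K ↥(Y ⊓ LinearMap.ker φ) + 1 = finrank K Y := by
  have h1 := LinearMap.finrank_range_add_finrank_ker (φ.domRestrict Y)
  have h2 : LinearMap.range (φ.domRestrict Y) = ⊤ := by
    rw [LinearMap.range_eq_top]
    apply LinearMap.surjective
    intro h0
    apply h
    intro y hy
    have := congrArg (fun f => f ⟨y, hy⟩) h0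
    simpa using this
  have h3 : (LinearMap.ker (φ.domRestrict Y)).map Y.subtype = Y ⊓ LinearMap.ker φ := by
    ext x
    simp only [mem_map, LinearMap.mem_ker, LinearMap.domRestrict_apply, subtype_apply,
      Subtype.exists, exists_and_left, exists_prop, mem_inf]
    constructor
    · rintro ⟨y, hy, hyY, rfl⟩
      exact ⟨hyY, hy⟩
    · rintro ⟨hx, hx0⟩
      exact ⟨x, hx0, hx, rfl⟩
  have h4 : finrank K ↥(Y ⊓ LinearMap.ker φ) = finrank K (LinearMap.ker (φ.domRestrict Y)) := by
    rw [← h3]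
    exact finrank_map_subtype_eq Y _
  rw [h2, finrank_top, finrank_self] at h1
  rw [h4]
  omega

omit [FiniteDimensional K W] in
lemma sum_split {M : Type*} [AddCommMonoid M] (E : Finset ι) (p : ι → Prop) [DecidablePred p]
    (f : Finset ι → M) :
    ∑ X ∈ E.powerset, f X = ∑ F ∈ (E.filter (fun j => ¬ p j)).powerset,
      ∑ X ∈ (E.filter p).powerset, f (X ∪ F) := by
  rw [← Finset.sum_product']
  refine Finset.sum_nbij' (fun X => (X.filter (fun j => ¬ p j), X.filter p))
    (fun z => z.2 ∪ z.1) ?_ ?_ ?_ ?_ ?_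
  · intro X hX
    simp only [Finset.mem_powerset] at hX
    simp only [Finset.mem_product, Finset.mem_powerset]
    exact ⟨Finset.filter_subset_filter _ hX, Finset.filter_subset_filter _ hX⟩
  · intro z hz
    simp only [Finset.mem_product, Finset.mem_powerset] at hz
    simp only [Finset.mem_powerset]
    exact Finset.union_subset (hz.2.trans (Finset.filter_subset _ _))
      (hz.1.trans (Finset.filter_subset _ _))
  · intro X _
    exact Finset.filter_union_filter_not_eq p X
  · rintro ⟨F, X⟩ hz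
    simp only [Finset.mem_product, Finset.mem_powerset] at hz
    obtain ⟨hF, hX⟩ := hz
    have h1 : ∀ j ∈ F, ¬ p j := fun j hj => (Finset.mem_filter.1 (hF hj)).2
    have h2 : ∀ j ∈ X, p j := fun j hj => (Finset.mem_filter.1 (hX hj)).2
    ext j
    · simp only [Finset.mem_filter, Finset.mem_union]
      constructor
      · rintro ⟨h | h, h'⟩
        · exact absurd (h2 j h) h'
        · exact h
      · intro h
        exact ⟨Or.inr h, h1 j h⟩
    · simp only [Finset.mem_filter, Finset.mem_union]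
      constructor
      · rintro ⟨h | h, h'⟩
        · exact h
        · exact absurd h' (h1 j h)
      · intro h
        exact ⟨Or.inl h, h2 j h⟩
  · intro X _
    simp only
    rw [Finset.filter_union_filter_not_eq p X]


lemma step_exp (φ : W →ₗ[K] K) {V U T S : Submodule K W} (hU : U ≤ V) (hT : T ≤ V)
    (hS : S ≤ LinearMap.ker φ) (h : ¬ U ⊔ T ≤ LinearMap.ker φ) :
    finrank K V - finrank K ↥((S ⊔ T) ⊔ U) =
      finrank K ↥(V ⊓ LinearMap.ker φ) -
        finrank K ↥(S ⊔ ((U ⊔ T) ⊓ LinearMap.ker φ)) := by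
  have e1 : (S ⊔ T) ⊔ U = S ⊔ (U ⊔ T) := by rw [sup_assoc, sup_comm T U]
  have e2 : S ⊔ ((U ⊔ T) ⊓ LinearMap.ker φ) = (S ⊔ (U ⊔ T)) ⊓ LinearMap.ker φ :=
    (sup_inf_assoc_of_le (U ⊔ T) hS).symm
  have hV : ¬ V ≤ LinearMap.ker φ := fun h' => h ((sup_le hU hT).trans h')
  have hY : ¬ S ⊔ (U ⊔ T) ≤ LinearMap.ker φ := fun h' => h (le_sup_right.trans h')
  have h1 := finrank_inf_ker φ V hV
  have h2 := finrank_inf_ker φ _ hY
  rw [e1, e2]
  omega

omit [FiniteDimensional K W] in
lemma step_L (φ : W →ₗ[K] K) {U T S : Submodule K W} (hS : S ≤ LinearMap.ker φ) :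
    (S ⊔ T) ⊓ U = ((S ⊓ ((U ⊔ T) ⊓ LinearMap.ker φ)) ⊔ T) ⊓ U := by
  apply le_antisymm
  · rintro x ⟨hx, hxU⟩
    refine ⟨?_, hxU⟩
    obtain ⟨s, hs, t, ht, rfl⟩ := mem_sup.1 hx
    refine mem_sup.2 ⟨s, ⟨hs, ?_, hS hs⟩, t, ht, rfl⟩
    have : s = (s + t) - t := by abel
    rw [this]
    exact sub_mem (mem_sup_left hxU) (mem_sup_right ht)
  · exact inf_le_inf_right _ (sup_le_sup_right inf_le_left _)

section Main

variable {a : ι → W} {q : ℂ} {V : Submodule K W} {E : Finset ι} (φ : W →ₗ[K] K)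

/-- splitting of the basic sum along a functional, case of a detected `U` -/
lemma Phi_split [DecidableEq K] (hE : ∀ j ∈ E, a j ∈ V) {U : Submodule K W} (hU : U ≤ V)
    (h : ¬ U ≤ LinearMap.ker φ) (g : Submodule K W → ℂ) :
    Phi a q V E U g = ∑ F ∈ (E.filter (fun j => ¬ φ (a j) = 0)).powerset,
      (-1 : ℂ) ^ F.card * Phi a q (V ⊓ LinearMap.ker φ) (E.filter (fun j => φ (a j) = 0))
        ((U ⊔ sp K a F) ⊓ LinearMap.ker φ) (fun L => g ((L ⊔ sp K a F) ⊓ U)) := by
  unfold Phi
  rw [sum_split E (fun j => φ (a j) = 0)]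
  refine Finset.sum_congr rfl fun F hF => ?_
  rw [Finset.mul_sum]
  refine Finset.sum_congr rfl fun X hX => ?_
  rw [Finset.mem_powerset] at hF hX
  have hXker : sp K a X ≤ LinearMap.ker φ :=
    sp_le fun j hj => LinearMap.mem_ker.2 (Finset.mem_filter.1 (hX hj)).2
  have hFV : sp K a F ≤ V := sp_le fun j hj => hE j (Finset.mem_filter.1 (hF hj)).1
  have hdisj : Disjoint X F := by
    rw [Finset.disjoint_left]
    intro j hj hj'
    exact (Finset.mem_filter.1 (hF hj')).2 (Finset.mem_filter.1 (hX hj)).2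
  rw [sp_union, Finset.card_union_of_disjoint hdisj, pow_add,
    step_exp φ hU hFV hXker (fun h' => h (le_sup_left.trans h')),
    step_L φ (U := U) (T := sp K a F) hXker]
  ring


/-- splitting of the characteristic polynomial along a functional -/
lemma p_split [DecidableEq K] (hE : ∀ j ∈ E, a j ∈ V) (h : ¬ V ≤ LinearMap.ker φ) :
    Phi a q V E ⊥ (fun _ => 1) =
      q * Phi a q (V ⊓ LinearMap.ker φ) (E.filter (fun j => φ (a j) = 0)) ⊥ (fun _ => 1) +
      ∑ F ∈ (E.filter (fun j => ¬ φ (a j) = 0)).powerset.erase ∅,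
      (-1 : ℂ) ^ F.card * Phi a q (V ⊓ LinearMap.ker φ) (E.filter (fun j => φ (a j) = 0))
        ((⊥ ⊔ sp K a F) ⊓ LinearMap.ker φ) (fun _ => 1) := by
  have hXker : ∀ X ⊆ E.filter (fun j => φ (a j) = 0), sp K a X ≤ LinearMap.ker φ :=
    fun X hX => sp_le fun j hj => LinearMap.mem_ker.2 (Finset.mem_filter.1 (hX hj)).2
  have hXV : ∀ X ⊆ E, sp K a X ≤ V := fun X hX => sp_le fun j hj => hE j (hX hj)
  have hfr := finrank_inf_ker φ V h
  unfold Phi
  rw [sum_split E (fun j => φ (a j) = 0),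
    ← Finset.add_sum_erase _ _ (Finset.empty_mem_powerset _)]
  congr 1
  · rw [Finset.mul_sum]
    refine Finset.sum_congr rfl fun X hX => ?_
    rw [Finset.mem_powerset] at hX
    have h1 : finrank K ↥(sp K a X ⊔ ⊥) ≤ finrank K ↥(V ⊓ LinearMap.ker φ) := by
      rw [sup_bot_eq]
      exact finrank_mono (le_inf (hXV X (hX.trans (Finset.filter_subset _ _))) (hXker X hX))
    have h2 : finrank K V - finrank K ↥(sp K a X ⊔ ⊥) =
        (finrank K ↥(V ⊓ LinearMap.ker φ) - finrank K ↥(sp K a X ⊔ ⊥)) + 1 := by omega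
    rw [Finset.union_empty, h2, pow_succ]
    ring
  · refine Finset.sum_congr rfl fun F hF => ?_
    rw [Finset.mul_sum]
    refine Finset.sum_congr rfl fun X hX => ?_
    rw [Finset.mem_erase, Finset.mem_powerset] at hF
    rw [Finset.mem_powerset] at hX
    obtain ⟨hF0, hF⟩ := hF
    have hFV : sp K a F ≤ V := hXV F (hF.trans (Finset.filter_subset _ _))
    have hdisj : Disjoint X F := by
      rw [Finset.disjoint_left]
      intro j hj hj'
      exact (Finset.mem_filter.1 (hF hj')).2 (Finset.mem_filter.1 (hX hj)).2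
    have hnot : ¬ (⊥ ⊔ sp K a F) ≤ LinearMap.ker φ := by
      obtain ⟨j, hj⟩ := Finset.nonempty_iff_ne_empty.2 hF0
      intro h'
      apply (Finset.mem_filter.1 (hF hj)).2
      have : a j ∈ sp K a F := subset_span ⟨j, hj, rfl⟩
      exact LinearMap.mem_ker.1 (h' (mem_sup_right this))
    rw [sp_union, Finset.card_union_of_disjoint hdisj, pow_add,
      step_exp φ bot_le hFV (hXker X hX) hnot]
    ring

end Main

omit [FiniteDimensional K W] [DecidableEq ι] in
lemma Phi_bot (a : ι → W) (q : ℂ) (V : Submodule K W) (E : Finset ι) (g : Submodule K W → ℂ) :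
    Phi a q V E ⊥ g = Phi a q V E ⊥ (fun _ => 1) * g ⊥ := by
  unfold Phi
  rw [Finset.sum_mul]
  refine Finset.sum_congr rfl fun X _ => ?_
  rw [inf_bot_eq, mul_one]

/-- **Main estimate.** -/
theorem main (k : ℕ) (P : Set (W →ₗ[K] K)) (a : ι → W) (q : ℂ) (hq : (2 : ℝ) ^ (k + 1) ≤ ‖q‖)
    (n : ℕ) :
    ∀ (V : Submodule K W) (E : Finset ι), finrank K V = n → (∀ j ∈ E, a j ∈ V) →
      (∀ j ∈ E, a j ≠ 0) → (∀ u ∈ V, u ≠ 0 → ∃ φ ∈ P, φ u ≠ 0) →
      (∀ φ ∈ P, ({j ∈ (E : Set ι) | φ (a j) ≠ 0}).ncard ≤ k) →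
      Phi a q V E ⊥ (fun _ => 1) ≠ 0 ∧
      ∀ (U : Submodule K W), U ≤ V → ∀ g : Submodule K W → ℂ, (∀ L, ‖g L‖ ≤ 1) →
        ‖Phi a q V E U g‖ ≤
          ‖Phi a q V E ⊥ (fun _ => 1)‖ * ((2 : ℝ) ^ (k + 1) / ‖q‖) ^ finrank K U := by
  classical
  have hβ : (0 : ℝ) < 2 ^ (k + 1) := by positivity
  have hq0 : 0 < ‖q‖ := hβ.trans_le hq
  have hr0 : 0 ≤ (2 : ℝ) ^ (k + 1) / ‖q‖ := by positivity
  have hr1 : (2 : ℝ) ^ (k + 1) / ‖q‖ ≤ 1 := by
    rw [div_le_one hq0]; exact hq
  induction n with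
  | zero =>
    intro V E hV hE hE0 _ _
    have hVbot : V = ⊥ := finrank_eq_zero.1 hV
    have hEe : E = ∅ := by
      rw [Finset.eq_empty_iff_forall_notMem]
      intro j hj
      have := hE j hj
      rw [hVbot, mem_bot] at this
      exact hE0 j hj this
    subst hEe hVbot
    have hval : Phi a q (⊥ : Submodule K W) (∅ : Finset ι) ⊥ (fun _ => 1) = 1 := by
      simp [Phi]
    refine ⟨by rw [hval]; exact one_ne_zero, ?_⟩
    intro U hU g hg
    have hU0 : U = ⊥ := le_bot_iff.1 hU
    subst hU0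
    rw [Phi_bot, hval]
    simpa using hg ⊥
  | succ n ih =>
    intro V E hV hE hE0 hP hk
    -- the step, for a functional which does not vanish on `V`
    have key : ∀ φ ∈ P, ¬ V ≤ LinearMap.ker φ →
        (Phi a q (V ⊓ LinearMap.ker φ) (E.filter (fun j => φ (a j) = 0)) ⊥ (fun _ => 1) ≠ 0 ∧
        ∀ (U : Submodule K W), U ≤ V ⊓ LinearMap.ker φ →
          ∀ g : Submodule K W → ℂ, (∀ L, ‖g L‖ ≤ 1) →
          ‖Phi a q (V ⊓ LinearMap.ker φ) (E.filter (fun j => φ (a j) = 0)) U g‖ ≤
          ‖Phi a q (V ⊓ LinearMap.ker φ) (E.filter (fun j => φ (a j) = 0)) ⊥ (fun _ => 1)‖ *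
            ((2 : ℝ) ^ (k + 1) / ‖q‖) ^ finrank K U) ∧
        (E.filter (fun j => ¬ φ (a j) = 0)).powerset.card ≤ 2 ^ k := by
      intro φ hφ hφV
      constructor
      · apply ih
        · have := finrank_inf_ker φ V hφV
          omega
        · intro j hj
          rw [Finset.mem_filter] at hj
          exact ⟨hE j hj.1, LinearMap.mem_ker.2 hj.2⟩
        · intro j hj
          exact hE0 j (Finset.mem_filter.1 hj).1
        · intro u hu hu0
          exact hP u hu.1 hu0
        · intro ψ hψ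
          refine le_trans (Set.ncard_le_ncard ?_ (Set.toFinite _)) (hk ψ hψ)
          rintro j ⟨hj, hj'⟩
          refine ⟨?_, hj'⟩
          rw [Finset.mem_coe, Finset.mem_filter] at hj
          exact hj.1
      · rw [Finset.card_powerset]
        apply Nat.pow_le_pow_right (by norm_num)
        refine le_trans (le_of_eq ?_) (hk φ hφ)
        rw [← Set.ncard_coe_finset]
        congr 1
        ext j
        simp
    -- lower bound for the characteristic polynomial
    have low : ∀ φ ∈ P, ¬ V ≤ LinearMap.ker φ →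
        ‖q‖ / 2 * ‖Phi a q (V ⊓ LinearMap.ker φ) (E.filter (fun j => φ (a j) = 0)) ⊥
          (fun _ => 1)‖ ≤ ‖Phi a q V E ⊥ (fun _ => 1)‖ := by
      intro φ hφ hφV
      obtain ⟨⟨_, hb⟩, hcard⟩ := key φ hφ hφV
      rw [p_split φ hE hφV]
      set p0 := Phi a q (V ⊓ LinearMap.ker φ) (E.filter (fun j => φ (a j) = 0)) ⊥ (fun _ => 1)
        with hp0
      have hsum : ‖∑ F ∈ (E.filter (fun j => ¬ φ (a j) = 0)).powerset.erase ∅,
          (-1 : ℂ) ^ F.card * Phi a q (V ⊓ LinearMap.ker φ) (E.filter (fun j => φ (a j) = 0))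
          ((⊥ ⊔ sp K a F) ⊓ LinearMap.ker φ) (fun _ => 1)‖ ≤ 2 ^ k * ‖p0‖ := by
        calc _ ≤ ∑ F ∈ (E.filter (fun j => ¬ φ (a j) = 0)).powerset.erase ∅, ‖p0‖ := by
              apply norm_sum_le_of_le
              intro F hF
              rw [Finset.mem_erase, Finset.mem_powerset] at hF
              rw [norm_mul, norm_pow, norm_neg, norm_one, one_pow, one_mul]
              refine (hb _ ?_ _ (fun _ => by simp)).trans ?_
              · refine inf_le_inf_right _ (sup_le bot_le ?_)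
                exact sp_le fun j hj => hE j (Finset.mem_filter.1 (hF.2 hj)).1
              · calc _ ≤ ‖p0‖ * 1 := by
                      apply mul_le_mul_of_nonneg_left _ (norm_nonneg _)
                      exact pow_le_one₀ hr0 hr1
                  _ = _ := mul_one _
          _ = ((E.filter (fun j => ¬ φ (a j) = 0)).powerset.erase ∅).card * ‖p0‖ := by
              rw [Finset.sum_const, nsmul_eq_mul]
          _ ≤ 2 ^ k * ‖p0‖ := by
              apply mul_le_mul_of_nonneg_right _ (norm_nonneg _)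
              have : ((E.filter (fun j => ¬ φ (a j) = 0)).powerset.erase ∅).card ≤ 2 ^ k :=
                (Finset.card_le_card (Finset.erase_subset _ _)).trans hcard
              exact_mod_cast this
      have h3 : ‖q * p0‖ = ‖q‖ * ‖p0‖ := norm_mul _ _
      have h4 : ‖q * p0‖ ≤ ‖q * p0 + ∑ F ∈ (E.filter (fun j => ¬ φ (a j) = 0)).powerset.erase ∅,
          (-1 : ℂ) ^ F.card * Phi a q (V ⊓ LinearMap.ker φ) (E.filter (fun j => φ (a j) = 0))
          ((⊥ ⊔ sp K a F) ⊓ LinearMap.ker φ) (fun _ => 1)‖ +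
          ‖∑ F ∈ (E.filter (fun j => ¬ φ (a j) = 0)).powerset.erase ∅,
          (-1 : ℂ) ^ F.card * Phi a q (V ⊓ LinearMap.ker φ) (E.filter (fun j => φ (a j) = 0))
          ((⊥ ⊔ sp K a F) ⊓ LinearMap.ker φ) (fun _ => 1)‖ := by
        have := norm_sub_le (q * p0 + ∑ F ∈ (E.filter (fun j => ¬ φ (a j) = 0)).powerset.erase ∅,
          (-1 : ℂ) ^ F.card * Phi a q (V ⊓ LinearMap.ker φ) (E.filter (fun j => φ (a j) = 0))
          ((⊥ ⊔ sp K a F) ⊓ LinearMap.ker φ) (fun _ => 1))
          (∑ F ∈ (E.filter (fun j => ¬ φ (a j) = 0)).powerset.erase ∅,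
          (-1 : ℂ) ^ F.card * Phi a q (V ⊓ LinearMap.ker φ) (E.filter (fun j => φ (a j) = 0))
          ((⊥ ⊔ sp K a F) ⊓ LinearMap.ker φ) (fun _ => 1))
        rwa [add_sub_cancel_right] at this
      have h5 : (2 : ℝ) ^ k ≤ ‖q‖ / 2 := by
        rw [pow_succ] at hq
        linarith
      have h6 : (2 : ℝ) ^ k * ‖p0‖ ≤ ‖q‖ / 2 * ‖p0‖ :=
        mul_le_mul_of_nonneg_right h5 (norm_nonneg _)
      linarith
    have hVne : V ≠ ⊥ := by
      rintro rfl
      simp at hV
    obtain ⟨u0, hu0V, hu0⟩ := exists_mem_ne_zero_of_ne_bot hVne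
    refine ⟨?_, ?_⟩
    · obtain ⟨φ, hφ, hφu⟩ := hP u0 hu0V hu0
      have hφV : ¬ V ≤ LinearMap.ker φ := fun h => hφu (LinearMap.mem_ker.1 (h hu0V))
      have h1 := low φ hφ hφV
      have h2 := (key φ hφ hφV).1.1
      have h3 : 0 < ‖q‖ / 2 * ‖Phi a q (V ⊓ LinearMap.ker φ)
          (E.filter (fun j => φ (a j) = 0)) ⊥ (fun _ => 1)‖ := by
        have := norm_pos_iff.2 h2
        positivity
      exact norm_pos_iff.1 (h3.trans_le h1)
    · intro U hU g hg
      by_cases hUbot : U = ⊥
      · subst hUbot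
        rw [Phi_bot, norm_mul, finrank_bot, pow_zero]
        exact mul_le_mul_of_nonneg_left (hg ⊥) (norm_nonneg _)
      · obtain ⟨u, huU, hu⟩ := exists_mem_ne_zero_of_ne_bot hUbot
        obtain ⟨φ, hφ, hφu⟩ := hP u (hU huU) hu
        have hφU : ¬ U ≤ LinearMap.ker φ := fun h => hφu (LinearMap.mem_ker.1 (h huU))
        have hφV : ¬ V ≤ LinearMap.ker φ := fun h => hφU (hU.trans h)
        obtain ⟨⟨_, hb⟩, hcard⟩ := key φ hφ hφV
        have hlow := low φ hφ hφV
        rw [Phi_split φ hE hU hφU g]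
        set p0 := Phi a q (V ⊓ LinearMap.ker φ) (E.filter (fun j => φ (a j) = 0)) ⊥ (fun _ => 1)
          with hp0
        have hfr := finrank_inf_ker φ U hφU
        obtain ⟨m, hm⟩ : ∃ m, finrank K U = m + 1 := ⟨_, hfr.symm⟩
        have hm' : finrank K ↥(U ⊓ LinearMap.ker φ) = m := by omega
        calc _ ≤ ∑ F ∈ (E.filter (fun j => ¬ φ (a j) = 0)).powerset,
              ‖p0‖ * ((2 : ℝ) ^ (k + 1) / ‖q‖) ^ m := by
              apply norm_sum_le_of_le
              intro F hF
              rw [Finset.mem_powerset] at hF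
              rw [norm_mul, norm_pow, norm_neg, norm_one, one_pow, one_mul]
              have hFV : sp K a F ≤ V := sp_le fun j hj => hE j (Finset.mem_filter.1 (hF hj)).1
              refine (hb _ (inf_le_inf_right _ (sup_le hU hFV)) _ (fun _ => hg _)).trans ?_
              apply mul_le_mul_of_nonneg_left _ (norm_nonneg _)
              apply pow_le_pow_of_le_one hr0 hr1
              rw [← hm']
              exact finrank_mono (inf_le_inf_right _ le_sup_left)
          _ = ((E.filter (fun j => ¬ φ (a j) = 0)).powerset).card *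
              (‖p0‖ * ((2 : ℝ) ^ (k + 1) / ‖q‖) ^ m) := by
              rw [Finset.sum_const, nsmul_eq_mul]
          _ ≤ 2 ^ k * (‖p0‖ * ((2 : ℝ) ^ (k + 1) / ‖q‖) ^ m) := by
              apply mul_le_mul_of_nonneg_right _ (by positivity)
              exact_mod_cast hcard
          _ = (‖q‖ / 2 * ‖p0‖) * ((2 : ℝ) ^ (k + 1) / ‖q‖) ^ (m + 1) := by
              rw [pow_succ ((2 : ℝ) ^ (k + 1) / ‖q‖) m, pow_succ (2 : ℝ) k]
              field_simp
          _ ≤ _ := by
              rw [hm]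
              exact mul_le_mul_of_nonneg_right hlow (by positivity)

end Pool.Agent.H157R2.Mat
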