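import Mathlib

/-!
# The edge version of Menger's theorem, via Hall's theorem
-/

set_option autoImplicit false

namespace Pool.Agent.H157R2.Menger

variable {V : Type*} [Fintype V] [DecidableEq V]

/-- the set of edges of `G` with exactly one end in `S` -/
def cut (G : SimpleGraph V) [DecidableRel G.Adj] (S : Finset V) : Finset (Sym2 V) :=
  G.edgeFinset.filter (fun e => (∃ x ∈ e, x ∈ S) ∧ ∃ y ∈ e, y ∉ S)

lemma orbit_aux (G : SimpleGraph V) (u v : V) (m : ℕ)
    (τ : Equiv.Perm (G.edgeSet ⊕ Fin m))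
    (h1 : ∀ i : Fin m, ∃ e : G.edgeSet, τ (Sum.inr i) = Sum.inl e ∧ u ∈ (e : Sym2 V))
    (h2 : ∀ e e' : G.edgeSet, τ (Sum.inl e) = Sum.inl e' → ∃ x, x ∈ (e : Sym2 V) ∧ x ∈ (e' : Sym2 V))
    (h3 : ∀ (e : G.edgeSet) (j : Fin m), τ (Sum.inl e) = Sum.inr j → v ∈ (e : Sym2 V)) (i : Fin m) :
    ∃ p : G.Walk u v, p.IsPath ∧ ∀ e ∈ p.edges, ∃ (he : e ∈ G.edgeSet) (n : ℕ),
      (τ ^ n) (Sum.inr i) = Sum.inl ⟨e, he⟩ ∧
        ∀ l, 1 ≤ l → l ≤ n → ∃ e', (τ ^ l) (Sum.inr i) = Sum.inl e' := by
  classical
  set x : ℕ → (G.edgeSet ⊕ Fin m) := fun n => (τ ^ n) (Sum.inr i) with hx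
  have hx0 : x 0 = Sum.inr i := by simp [hx]
  have hxs : ∀ n, x (n + 1) = τ (x n) := by
    intro n
    simp only [hx]
    rw [pow_succ', Equiv.Perm.mul_apply]
  have hex : ∃ n, 1 ≤ n ∧ ∃ j, x n = Sum.inr j := by
    refine ⟨orderOf τ, orderOf_pos τ, i, ?_⟩
    simp [hx, pow_orderOf_eq_one]
  obtain ⟨M, ⟨hM1, jM, hjM⟩, hmin⟩ : ∃ M, (1 ≤ M ∧ ∃ j, x M = Sum.inr j) ∧
      ∀ n < M, ¬ (1 ≤ n ∧ ∃ j, x n = Sum.inr j) :=
    ⟨Nat.find hex, Nat.find_spec hex, fun n hn => Nat.find_min hex hn⟩
  have hinl : ∀ n, 1 ≤ n → n < M → ∃ e, x n = Sum.inl e := by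
    intro n hn hnM
    rcases hxn : x n with e | j
    · exact ⟨e, rfl⟩
    · exact absurd ⟨hn, j, hxn⟩ (hmin n hnM)
  let F : Set (Sym2 V) := {e | ∃ (he : e ∈ G.edgeSet) (n : ℕ), 1 ≤ n ∧ n < M ∧
    x n = Sum.inl ⟨e, he⟩}
  let H : SimpleGraph V := SimpleGraph.fromEdgeSet F
  have hHG : H ≤ G := by
    intro a b hab
    rw [SimpleGraph.fromEdgeSet_adj] at hab
    obtain ⟨⟨he, _⟩, _⟩ := hab
    exact he
  have hstep : ∀ (e : G.edgeSet), (e : Sym2 V) ∈ F → ∀ z y, z ∈ (e : Sym2 V) →
      y ∈ (e : Sym2 V) → H.Reachable u z → H.Reachable u y := by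
    intro e heF z y hz hy hr
    by_cases hzy : z = y
    · rw [← hzy]; exact hr
    · refine hr.trans (SimpleGraph.Adj.reachable ?_)
      rw [SimpleGraph.fromEdgeSet_adj]
      refine ⟨?_, hzy⟩
      have : (e : Sym2 V) = s(z, y) := by
        exact ((Sym2.mem_and_mem_iff hzy).1 ⟨hz, hy⟩)
      rw [← this]
      exact heF
  have hreach : ∀ n, n + 1 < M → ∀ e, x (n + 1) = Sum.inl e → ∀ y ∈ (e : Sym2 V),
      H.Reachable u y := by
    intro n
    induction n with
    | zero =>
      intro hn e he y hy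
      obtain ⟨e1, he1, hu⟩ := h1 i
      rw [hxs, hx0, he1] at he
      have hee : e1 = e := Sum.inl_injective he
      subst hee
      refine hstep e1 ⟨e1.2, 1, le_rfl, hn, ?_⟩ u y hu hy (SimpleGraph.Reachable.refl u)
      rw [show (1 : ℕ) = 0 + 1 from rfl, hxs, hx0, he1]
    | succ n ih =>
      intro hn e he y hy
      obtain ⟨e0, he0⟩ := hinl (n + 1) (by omega) (by omega)
      obtain ⟨z, hz0, hz⟩ := h2 e0 e (by rw [← he0, ← hxs, he])
      exact hstep e ⟨e.2, n + 1 + 1, by omega, hn, he⟩ z y hz hy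
        (ih (by omega) e0 he0 z hz0)
  have hM2 : 2 ≤ M := by
    by_contra hlt
    have : M = 1 := by omega
    obtain ⟨e, he, _⟩ := h1 i
    rw [this] at hjM
    rw [show (1 : ℕ) = 0 + 1 from rfl, hxs, hx0, he] at hjM
    cases hjM
  have huv : H.Reachable u v := by
    obtain ⟨e, he⟩ := hinl (M - 1) (by omega) (by omega)
    have hM' : M - 1 = (M - 2) + 1 := by omega
    have hv : v ∈ (e : Sym2 V) := by
      apply h3 e jM
      rw [← he, ← hxs, show M - 1 + 1 = M by omega, hjM]
    exact hreach (M - 2) (by omega) e (by rw [← hM', he]) v hv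
  obtain ⟨w⟩ := huv
  refine ⟨(w.toPath : H.Walk u v).mapLe hHG, ?_, ?_⟩
  · exact (SimpleGraph.Walk.isPath_mapLe hHG).2 w.toPath.2
  · intro e he
    rw [SimpleGraph.Walk.edges_mapLe_eq_edges] at he
    have heH := SimpleGraph.Walk.edges_subset_edgeSet _ he
    rw [SimpleGraph.edgeSet_fromEdgeSet] at heH
    obtain ⟨⟨he', n, hn1, hnM, hxn⟩, _⟩ := heH
    exact ⟨he', n, hxn, fun l hl hln => hinl l hl (by omega)⟩

/-- **Menger's theorem, edge version.** -/
theorem edge_menger (G : SimpleGraph V) [DecidableRel G.Adj] (u v : V) (huv : u ≠ v) (m : ℕ)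
    (h : ∀ S : Finset V, u ∈ S → v ∉ S → m ≤ (cut G S).card) :
    ∃ p : Fin m → G.Walk u v, (∀ i, (p i).IsPath) ∧
      Pairwise (fun i j => List.Disjoint (p i).edges (p j).edges) := by
  classical
  let X := G.edgeSet ⊕ Fin m
  let t : X → Finset X := fun x => Finset.univ.filter fun y =>
    match x, y with
    | Sum.inl e, Sum.inl e' => ∃ x, x ∈ (e : Sym2 V) ∧ x ∈ (e' : Sym2 V)
    | Sum.inl e, Sum.inr _ => v ∈ (e : Sym2 V)
    | Sum.inr _, Sum.inl e' => u ∈ (e' : Sym2 V)
    | Sum.inr _, Sum.inr _ => False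
  have hall : ∀ A : Finset X, A.card ≤ (A.biUnion t).card := by
    intro A
    have hA : A.card = A.toLeft.card + A.toRight.card :=
      (Finset.card_toLeft_add_card_toRight).symm
    have hB : (A.biUnion t).card = (A.biUnion t).toLeft.card + (A.biUnion t).toRight.card :=
      (Finset.card_toLeft_add_card_toRight).symm
    have hAB : A.toLeft ⊆ (A.biUnion t).toLeft := by
      intro e he
      rw [Finset.mem_toLeft] at he ⊢
      refine Finset.mem_biUnion.2 ⟨_, he, ?_⟩
      obtain ⟨e, he'⟩ := e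
      induction e with
      | _ a b => simp [t]
    have hAm : A.toRight.card ≤ m := by
      have := Finset.card_le_univ A.toRight
      simpa using this
    by_cases hA2 : A.toRight = ∅
    · have := Finset.card_le_card hAB
      rw [hA2, Finset.card_empty] at hA
      omega
    · obtain ⟨i0, hi0⟩ := Finset.nonempty_iff_ne_empty.2 hA2
      rw [Finset.mem_toRight] at hi0
      by_cases hv : ∃ e ∈ A.toLeft, v ∈ (e : Sym2 V)
      · obtain ⟨e, he, hve⟩ := hv
        rw [Finset.mem_toLeft] at he
        have hB2 : (A.biUnion t).toRight = Finset.univ := by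
          ext j
          simp only [Finset.mem_toRight, Finset.mem_univ, iff_true]
          refine Finset.mem_biUnion.2 ⟨_, he, ?_⟩
          simp [t, hve]
        have := Finset.card_le_card hAB
        rw [hB2, Finset.card_univ, Fintype.card_fin] at hB
        omega
      · push Not at hv
        let S : Finset V := insert u (Finset.univ.filter fun z => ∃ e ∈ A.toLeft, z ∈ (e : Sym2 V))
        have hvS : v ∉ S := by
          simp only [S, Finset.mem_insert, Finset.mem_filter, Finset.mem_univ, true_and, not_or,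
            not_exists, not_and]
          exact ⟨fun h => huv h.symm, hv⟩
        have hcut := h S (Finset.mem_insert_self _ _) hvS
        let C' : Finset G.edgeSet := Finset.univ.filter fun e => (e : Sym2 V) ∈ cut G S
        have hC' : C'.card = (cut G S).card := by
          have : cut G S = C'.map ⟨Subtype.val, Subtype.val_injective⟩ := by
            ext e
            simp only [C', Finset.mem_map, Finset.mem_filter, Finset.mem_univ, true_and,
              Function.Embedding.coeFn_mk, Subtype.exists, exists_and_left, exists_prop,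
              exists_eq_right_right, iff_self_and]
            intro he
            have := (Finset.mem_filter.1 he).1
            rwa [SimpleGraph.mem_edgeFinset] at this
          rw [this, Finset.card_map]
        have hsub : A.toLeft ∪ C' ⊆ (A.biUnion t).toLeft := by
          apply Finset.union_subset hAB
          intro e he
          simp only [C', Finset.mem_filter, Finset.mem_univ, true_and, cut] at he
          obtain ⟨_, ⟨x, hxe, hxS⟩, _⟩ := he
          rw [Finset.mem_toLeft]
          rcases Finset.mem_insert.1 hxS with rfl | hxS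
          · refine Finset.mem_biUnion.2 ⟨_, hi0, ?_⟩
            simp [t, hxe]
          · obtain ⟨e0, he0, hx0⟩ := (Finset.mem_filter.1 hxS).2
            rw [Finset.mem_toLeft] at he0
            refine Finset.mem_biUnion.2 ⟨_, he0, ?_⟩
            simp only [t, Finset.mem_filter, Finset.mem_univ, true_and]
            exact ⟨x, hx0, hxe⟩
        have hdisj : Disjoint A.toLeft C' := by
          rw [Finset.disjoint_left]
          intro e he he'
          simp only [C', Finset.mem_filter, Finset.mem_univ, true_and, cut] at he'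
          obtain ⟨_, _, y, hye, hyS⟩ := he'
          apply hyS
          exact Finset.mem_insert_of_mem (Finset.mem_filter.2 ⟨Finset.mem_univ _, e, he, hye⟩)
        have := Finset.card_le_card hsub
        rw [Finset.card_union_of_disjoint hdisj] at this
        omega
  obtain ⟨f, hf, hft⟩ := (Finset.all_card_le_biUnion_card_iff_exists_injective t).1 hall
  have hbij : Function.Bijective f := Finite.injective_iff_bijective.1 hf
  let τ : Equiv.Perm X := Equiv.ofBijective f hbij
  have hτ : ∀ x, τ x = f x := fun _ => rfl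
  have h1 : ∀ i : Fin m, ∃ e : G.edgeSet, τ (Sum.inr i) = Sum.inl e ∧ u ∈ (e : Sym2 V) := by
    intro i
    have := hft (Sum.inr i)
    rw [← hτ] at this
    rcases hy : τ (Sum.inr i) with e | j
    · rw [hy] at this
      simp only [t, Finset.mem_filter, Finset.mem_univ, true_and] at this
      exact ⟨e, rfl, this⟩
    · rw [hy] at this
      simp [t] at this
  have h2 : ∀ e e' : G.edgeSet, τ (Sum.inl e) = Sum.inl e' →
      ∃ x, x ∈ (e : Sym2 V) ∧ x ∈ (e' : Sym2 V) := by
    intro e e' hy
    have := hft (Sum.inl e)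
    rw [← hτ, hy] at this
    simpa only [t, Finset.mem_filter, Finset.mem_univ, true_and] using this
  have h3 : ∀ (e : G.edgeSet) (j : Fin m), τ (Sum.inl e) = Sum.inr j → v ∈ (e : Sym2 V) := by
    intro e j hy
    have := hft (Sum.inl e)
    rw [← hτ, hy] at this
    simpa only [t, Finset.mem_filter, Finset.mem_univ, true_and] using this
  choose p hp hpe using orbit_aux G u v m τ h1 h2 h3
  refine ⟨p, hp, ?_⟩
  intro i j hij
  rw [List.disjoint_left]
  intro e hei hej
  obtain ⟨he, n, hn, hnl⟩ := hpe i e hei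
  obtain ⟨_, n', hn', hnl'⟩ := hpe j e hej
  -- symmetric statement
  have key : ∀ (i j : Fin m) (n n' : ℕ), i ≠ j → n ≤ n' →
      (τ ^ n) (Sum.inr i) = (τ ^ n') (Sum.inr j) →
      (∀ l, 1 ≤ l → l ≤ n' → ∃ e', (τ ^ l) (Sum.inr j) = Sum.inl e') → False := by
    intro i j n n' hij hnn heq hl
    have h5 : (Sum.inr i : X) = (τ ^ (n' - n)) (Sum.inr j) := by
      apply (τ ^ n).injective
      rw [heq, ← Equiv.Perm.mul_apply, ← pow_add, show n + (n' - n) = n' by omega]
    rcases Nat.eq_zero_or_pos (n' - n) with h0 | h0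
    · rw [h0, pow_zero, Equiv.Perm.one_apply] at h5
      exact hij (Sum.inr_injective h5)
    · obtain ⟨e', he'⟩ := hl (n' - n) h0 (by omega)
      rw [he'] at h5
      cases h5
  rcases le_total n n' with hnn | hnn
  · exact key i j n n' hij hnn (hn.trans hn'.symm) hnl'
  · exact key j i n' n (Ne.symm hij) hnn (hn'.trans hn.symm) hnl

end Pool.Agent.H157R2.Menger
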