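import Mathlib
import Pool.Agent.H157R2.Menger

/-!
# Small cuts that split an even set oddly
-/

set_option autoImplicit false

namespace Pool.Agent.H157R2.Menger

variable {V : Type*} [Fintype V] [DecidableEq V] (G : SimpleGraph V) [DecidableRel G.Adj]

lemma cut_card (S : Finset V) : (cut G S).card =
    ∑ e ∈ G.edgeFinset, if (∃ x ∈ e, x ∈ S) ∧ ∃ y ∈ e, y ∉ S then 1 else 0 := by
  unfold cut
  rw [Finset.card_filter]

lemma cut_submod (A B : Finset V) :
    (cut G (A ∩ B)).card + (cut G (A ∪ B)).card ≤ (cut G A).card + (cut G B).card := by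
  rw [cut_card, cut_card, cut_card, cut_card, ← Finset.sum_add_distrib, ← Finset.sum_add_distrib]
  apply Finset.sum_le_sum
  intro e _
  induction e with
  | _ x y =>
    by_cases h1 : x ∈ A <;> by_cases h2 : y ∈ A <;> by_cases h3 : x ∈ B <;> by_cases h4 : y ∈ B <;>
      simp [h1, h2, h3, h4]

lemma cut_posimod (A B : Finset V) :
    (cut G (A \ B)).card + (cut G (B \ A)).card ≤ (cut G A).card + (cut G B).card := by
  rw [cut_card, cut_card, cut_card, cut_card, ← Finset.sum_add_distrib, ← Finset.sum_add_distrib]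
  apply Finset.sum_le_sum
  intro e _
  induction e with
  | _ x y =>
    by_cases h1 : x ∈ A <;> by_cases h2 : y ∈ A <;> by_cases h3 : x ∈ B <;> by_cases h4 : y ∈ B <;>
      simp [h1, h2, h3, h4]

/-- If any two vertices can be separated by a cut with at most `k` edges, then any nonempty even
set is split oddly by a cut with at most `k` edges. -/
theorem odd_cut (k : ℕ)
    (h : ∀ u v : V, u ≠ v → ∃ S : Finset V, u ∈ S ∧ v ∉ S ∧ (cut G S).card ≤ k) (n : ℕ) :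
    ∀ T : Finset V, T.card = n → T.Nonempty → Even T.card →
      ∃ S : Finset V, Odd (S ∩ T).card ∧ (cut G S).card ≤ k := by
  induction n using Nat.strong_induction_on with
  | _ n ih =>
  intro T hTn hTne hTe
  -- the separating cuts
  have hex : ∃ d, ∃ S : Finset V, (S ∩ T).Nonempty ∧ (T \ S).Nonempty ∧ (cut G S).card = d := by
    have h2 : 1 < T.card := by
      have := hTne.card_pos
      obtain ⟨r, hr⟩ := hTe
      omega
    obtain ⟨u, hu, v, hv, huv⟩ := Finset.one_lt_card.1 h2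
    obtain ⟨S, huS, hvS, _⟩ := h u v huv
    exact ⟨_, S, ⟨u, Finset.mem_inter.2 ⟨huS, hu⟩⟩, ⟨v, Finset.mem_sdiff.2 ⟨hv, hvS⟩⟩, rfl⟩
  classical
  obtain ⟨S0, hS0a, hS0b, hS0d⟩ := Nat.find_spec hex
  have hmin : ∀ S : Finset V, (S ∩ T).Nonempty → (T \ S).Nonempty →
      (cut G S0).card ≤ (cut G S).card := by
    intro S h1 h2
    rw [hS0d]
    exact Nat.find_min' hex ⟨S, h1, h2, rfl⟩
  have hS0k : (cut G S0).card ≤ k := by
    obtain ⟨u, hu⟩ := hS0a
    obtain ⟨v, hv⟩ := hS0b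
    rw [Finset.mem_inter] at hu
    rw [Finset.mem_sdiff] at hv
    obtain ⟨S, huS, hvS, hSk⟩ := h u v (by rintro rfl; exact hv.2 hu.1)
    exact (hmin S ⟨u, Finset.mem_inter.2 ⟨huS, hu.2⟩⟩ ⟨v, Finset.mem_sdiff.2 ⟨hv.1, hvS⟩⟩).trans hSk
  rcases Nat.even_or_odd (S0 ∩ T).card with hev | hodd
  swap
  · exact ⟨S0, hodd, hS0k⟩
  -- apply induction to `T ∩ S0`
  have hlt : (S0 ∩ T).card < n := by
    rw [← hTn]
    apply Finset.card_lt_card
    rw [Finset.ssubset_iff_subset_ne]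
    refine ⟨Finset.inter_subset_right, ?_⟩
    intro he
    obtain ⟨v, hv⟩ := hS0b
    rw [Finset.mem_sdiff, ← he, Finset.mem_inter] at hv
    exact hv.2 hv.1.1
  obtain ⟨S1, hS1odd, hS1k⟩ := ih _ hlt (S0 ∩ T) rfl hS0a hev
  by_cases ha : (cut G (S1 ∩ S0)).card ≤ k
  · refine ⟨S1 ∩ S0, ?_, ha⟩
    rwa [Finset.inter_assoc]
  by_cases hb : (cut G (S0 \ S1)).card ≤ k
  · refine ⟨S0 \ S1, ?_, hb⟩
    have e1 : (S0 \ S1) ∩ T = (S0 ∩ T) \ (S1 ∩ (S0 ∩ T)) := by
      ext x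
      simp only [Finset.mem_inter, Finset.mem_sdiff]
      tauto
    rw [e1, Finset.card_sdiff_of_subset Finset.inter_subset_right]
    have hle : (S1 ∩ (S0 ∩ T)).card ≤ (S0 ∩ T).card :=
      Finset.card_le_card Finset.inter_subset_right
    exact Nat.Even.sub_odd hle hev hS1odd
  exfalso
  have h1 := cut_submod G S1 S0
  have h2 := cut_posimod G S1 S0
  have h3 : ¬ (((S1 ∪ S0) ∩ T).Nonempty ∧ (T \ (S1 ∪ S0)).Nonempty) := by
    rintro ⟨p1, p2⟩
    have := hmin _ p1 p2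
    omega
  have h4 : ¬ (((S1 \ S0) ∩ T).Nonempty ∧ (T \ (S1 \ S0)).Nonempty) := by
    rintro ⟨p1, p2⟩
    have := hmin _ p1 p2
    omega
  obtain ⟨u, hu⟩ := hS0a
  obtain ⟨v, hv⟩ := hS0b
  rw [Finset.mem_inter] at hu
  rw [Finset.mem_sdiff] at hv
  have hvU : v ∈ S1 ∪ S0 := by
    by_contra hvn
    exact h3 ⟨⟨u, Finset.mem_inter.2 ⟨Finset.mem_union_right _ hu.1, hu.2⟩⟩,
      ⟨v, Finset.mem_sdiff.2 ⟨hv.1, hvn⟩⟩⟩
  have hvS1 : v ∈ S1 := by
    rcases Finset.mem_union.1 hvU with h | h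
    · exact h
    · exact absurd h hv.2
  exact h4 ⟨⟨v, Finset.mem_inter.2 ⟨Finset.mem_sdiff.2 ⟨hvS1, hv.2⟩, hv.1⟩⟩,
    ⟨u, Finset.mem_sdiff.2 ⟨hu.2, fun h => (Finset.mem_sdiff.1 h).2 hu.1⟩⟩⟩

end Pool.Agent.H157R2.Menger
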