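import Mathlib
import Pool.Agent.H157R2.Mat
import Pool.Agent.H157R2.Parity

/-!
# The chromatic polynomial as a characteristic polynomial over `ZMod 2`, and the maxmaxflow bound
-/

set_option autoImplicit false

namespace Pool.Agent.H157R2.Chrom

open Module Submodule Pool.Agent.H157R2.Mat Pool.Agent.H157R2.Menger Polynomial

variable {V : Type*} [Fintype V] [DecidableEq V]

/-- the incidence vector of an edge -/
def inc (e : Sym2 V) : V → ZMod 2 := fun z => if z ∈ e then 1 else 0

omit [Fintype V] in
lemma inc_mk {x y : V} (h : x ≠ y) : inc s(x, y) = Pi.single x 1 + Pi.single y 1 := by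
  ext z
  unfold inc
  by_cases hx : z = x
  · subst hx
    simp [h]
  · by_cases hy : z = y
    · subst hy
      simp [hx]
    · simp [hx, hy]

omit [Fintype V] [DecidableEq V] in
lemma card_const (H : SimpleGraph V) (n : ℕ) :
    Nat.card {σ : V → Fin n // ∀ x y, H.Adj x y → σ x = σ y} =
      Nat.card (H.ConnectedComponent → Fin n) := by
  have hw : ∀ σ : {σ : V → Fin n // ∀ x y, H.Adj x y → σ x = σ y},
      ∀ (v w : V) (p : H.Walk v w), p.IsPath → σ.1 v = σ.1 w := by
    intro σ v w p _
    have hp : ∀ (v w : V) (p : H.Walk v w), σ.1 v = σ.1 w := by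
      intro v w p
      induction p with
      | nil => rfl
      | cons h _ ih => exact (σ.2 _ _ h).trans ih
    exact hp v w p
  apply Nat.card_congr
  exact
    { toFun := fun σ => SimpleGraph.ConnectedComponent.lift σ.1 (hw σ)
      invFun := fun f => ⟨fun x => f (H.connectedComponentMk x), fun x y h => by
        exact congrArg f (SimpleGraph.ConnectedComponent.sound h.reachable)⟩
      left_inv := fun σ => by
        apply Subtype.ext
        ext x
        rfl
      right_inv := fun f => by
        ext c
        induction c using SimpleGraph.ConnectedComponent.ind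
        rfl }

/-- number of components and rank over `ZMod 2` -/
lemma finrank_sp (A : Finset (Sym2 V)) (hA : ∀ e ∈ A, ¬ e.IsDiag) :
    finrank (ZMod 2) (sp (ZMod 2) inc A) +
      Nat.card (SimpleGraph.fromEdgeSet (A : Set (Sym2 V))).ConnectedComponent =
      Fintype.card V := by
  classical
  set H := SimpleGraph.fromEdgeSet (A : Set (Sym2 V)) with hH
  have : Finite H.ConnectedComponent := Quot.finite _
  have : Fintype H.ConnectedComponent := Fintype.ofFinite _
  let T : (H.ConnectedComponent → ZMod 2) →ₗ[ZMod 2] ((V → ZMod 2) →ₗ[ZMod 2] ZMod 2) :=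
    { toFun := fun f => ∑ z : V, f (H.connectedComponentMk z) • LinearMap.proj z
      map_add' := by
        intro f g
        simp only [Pi.add_apply, add_smul, Finset.sum_add_distrib]
      map_smul' := by
        intro c f
        simp only [Pi.smul_apply, smul_eq_mul, mul_smul, Finset.smul_sum, RingHom.id_apply] }
  have hT : ∀ f z, T f (Pi.single z 1) = f (H.connectedComponentMk z) := by
    intro f z
    simp only [T, LinearMap.coe_mk, AddHom.coe_mk, LinearMap.coe_sum, Finset.sum_apply,
      LinearMap.smul_apply, LinearMap.proj_apply, smul_eq_mul]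
    rw [Finset.sum_eq_single z]
    · simp
    · intro b _ hb
      rw [Pi.single_eq_of_ne hb]
      simp
    · intro h
      exact absurd (Finset.mem_univ z) h
  have hinj : Function.Injective T := by
    intro f g hfg
    ext c
    induction c using SimpleGraph.ConnectedComponent.ind with
    | _ z =>
      rw [← hT f z, ← hT g z, hfg]
  have hchar : ∀ t : ZMod 2, t + t = 0 := by decide
  have hchar2 : ∀ s t : ZMod 2, s + t = 0 → s = t := by decide
  have hrange : LinearMap.range T = (sp (ZMod 2) inc A).dualAnnihilator := by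
    apply le_antisymm
    · rintro _ ⟨f, rfl⟩
      rw [mem_dualAnnihilator]
      intro w hw
      unfold sp at hw
      induction hw using Submodule.span_induction with
      | mem x hx =>
        obtain ⟨e, he, rfl⟩ := hx
        have hd := hA e he
        induction e with
        | _ x y =>
          rw [Sym2.mk_isDiag_iff] at hd
          rw [inc_mk hd, map_add, hT, hT]
          have : H.connectedComponentMk x = H.connectedComponentMk y := by
            apply SimpleGraph.ConnectedComponent.sound
            apply SimpleGraph.Adj.reachable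
            rw [hH, SimpleGraph.fromEdgeSet_adj]
            exact ⟨he, hd⟩
          rw [this]
          exact hchar _
      | zero => simp
      | add x y _ _ h1 h2 => rw [map_add, h1, h2, add_zero]
      | smul c x _ h => rw [map_smul, h, smul_zero]
    · intro φ hφ
      rw [mem_dualAnnihilator] at hφ
      have hadj : ∀ x y, H.Adj x y → φ (Pi.single x 1) = φ (Pi.single y 1) := by
        intro x y hxy
        rw [hH, SimpleGraph.fromEdgeSet_adj] at hxy
        have := hφ (inc s(x, y)) (subset_span ⟨_, hxy.1, rfl⟩)
        rw [inc_mk hxy.2, map_add] at this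
        exact hchar2 _ _ this
      have hw : ∀ (v w : V) (p : H.Walk v w), p.IsPath →
          φ (Pi.single v 1) = φ (Pi.single w 1) := by
        intro v w p _
        have hp : ∀ (v w : V) (p : H.Walk v w), φ (Pi.single v 1) = φ (Pi.single w 1) := by
          intro v w p
          induction p with
          | nil => rfl
          | cons h _ ih => exact (hadj _ _ h).trans ih
        exact hp v w p
      refine ⟨SimpleGraph.ConnectedComponent.lift (fun z => φ (Pi.single z 1)) hw, ?_⟩
      apply LinearMap.pi_ext'
      intro z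
      ext
      simp only [LinearMap.coe_comp, LinearMap.coe_single, Function.comp_apply]
      rw [hT]
      rfl
  have h1 := Subspace.finrank_add_finrank_dualAnnihilator_eq (sp (ZMod 2) (inc : Sym2 V → V → ZMod 2) A)
  rw [← hrange, LinearMap.finrank_range_of_inj hinj] at h1
  rw [finrank_pi, finrank_pi] at h1
  rw [Nat.card_eq_fintype_card]
  exact h1

/-- Whitney expansion of the number of colourings -/
lemma whitney (G : SimpleGraph V) [DecidableRel G.Adj] (n : ℕ) :
    ((Nat.card (G.Coloring (Fin n)) : ℕ) : ℂ) =
      ∑ A ∈ G.edgeFinset.powerset, (-1 : ℂ) ^ A.card *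
        (n : ℂ) ^ (Fintype.card V - finrank (ZMod 2) (sp (ZMod 2) inc A)) := by
  classical
  have h1 : ((Nat.card (G.Coloring (Fin n)) : ℕ) : ℂ) =
      ∑ σ : V → Fin n, ∏ e ∈ G.edgeFinset, (-(if (Sym2.map σ e).IsDiag then (1 : ℂ) else 0) + 1) := by
    have e1 : G.Coloring (Fin n) ≃ {σ : V → Fin n // ∀ e ∈ G.edgeFinset, ¬ (Sym2.map σ e).IsDiag} :=
      { toFun := fun c => ⟨c, by
          intro e he
          induction e with
          | _ x y =>
            rw [SimpleGraph.mem_edgeFinset, SimpleGraph.mem_edgeSet] at he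
            rw [Sym2.map_mk, Sym2.mk_isDiag_iff]
            exact c.valid he⟩
        invFun := fun σ => SimpleGraph.Coloring.mk σ.1 (by
          intro x y hxy hσ
          apply σ.2 s(x, y) (by rw [SimpleGraph.mem_edgeFinset]; exact hxy)
          rw [Sym2.map_mk, Sym2.mk_isDiag_iff]
          exact hσ)
        left_inv := fun c => rfl
        right_inv := fun σ => rfl }
    rw [Nat.card_congr e1, Nat.card_eq_fintype_card, Fintype.card_subtype,
      Finset.card_eq_sum_ones, Nat.cast_sum, Finset.sum_filter]
    refine Finset.sum_congr rfl fun σ _ => ?_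
    split_ifs with h
    · rw [Nat.cast_one]
      symm
      apply Finset.prod_eq_one
      intro e he
      rw [if_neg (h e he)]
      simp
    · push Not at h
      obtain ⟨e, he, hd⟩ := h
      symm
      apply Finset.prod_eq_zero he
      rw [if_pos hd]
      simp
  rw [h1]
  simp only [Finset.prod_add, Finset.prod_const_one, mul_one]
  rw [Finset.sum_comm]
  refine Finset.sum_congr rfl fun A hA => ?_
  rw [Finset.mem_powerset] at hA
  have hAd : ∀ e ∈ A, ¬ e.IsDiag := by
    intro e he
    exact G.not_isDiag_of_mem_edgeFinset (hA he)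
  have h2 := finrank_sp A hAd
  have h3 : Fintype.card V - finrank (ZMod 2) (sp (ZMod 2) inc A) =
      Nat.card (SimpleGraph.fromEdgeSet (A : Set (Sym2 V))).ConnectedComponent := by omega
  have h4 : ∀ σ : V → Fin n, (∏ e ∈ A, -(if (Sym2.map σ e).IsDiag then (1 : ℂ) else 0)) =
      (-1) ^ A.card * (if ∀ x y, (SimpleGraph.fromEdgeSet (A : Set (Sym2 V))).Adj x y → σ x = σ y
        then 1 else 0) := by
    intro σ
    rw [Finset.prod_neg]
    congr 1
    split_ifs with h
    · apply Finset.prod_eq_one
      intro e he
      have hd := hAd e he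
      induction e with
      | _ x y =>
        rw [Sym2.mk_isDiag_iff] at hd
        rw [if_pos]
        rw [Sym2.map_mk, Sym2.mk_isDiag_iff]
        exact h x y (by rw [SimpleGraph.fromEdgeSet_adj]; exact ⟨he, hd⟩)
    · push Not at h
      obtain ⟨x, y, hxy, hσ⟩ := h
      rw [SimpleGraph.fromEdgeSet_adj] at hxy
      apply Finset.prod_eq_zero hxy.1
      rw [if_neg]
      rw [Sym2.map_mk, Sym2.mk_isDiag_iff]
      exact hσ
  simp only [h4]
  rw [← Finset.mul_sum, h3]
  congr 1
  have h5 := card_const (SimpleGraph.fromEdgeSet (A : Set (Sym2 V))) n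
  rw [Finset.sum_boole, ← Fintype.card_subtype, ← Nat.card_eq_fintype_card, h5]
  have : Finite (SimpleGraph.fromEdgeSet (A : Set (Sym2 V))).ConnectedComponent := Quot.finite _
  have : Fintype (SimpleGraph.fromEdgeSet (A : Set (Sym2 V))).ConnectedComponent :=
    Fintype.ofFinite _
  rw [Nat.card_eq_fintype_card, Nat.card_eq_fintype_card, Fintype.card_fun, Fintype.card_fin,
    Nat.cast_pow]


/-- the functional attached to a vertex set -/
def phiS (S : Finset V) : (V → ZMod 2) →ₗ[ZMod 2] ZMod 2 := ∑ z ∈ S, LinearMap.proj z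

omit [Fintype V] [DecidableEq V] in
lemma phiS_apply (S : Finset V) (x : V → ZMod 2) : phiS S x = ∑ z ∈ S, x z := by
  unfold phiS
  rw [LinearMap.sum_apply]
  rfl

omit [Fintype V] in
lemma phiS_single (S : Finset V) (z : V) : phiS S (Pi.single z 1) = if z ∈ S then 1 else 0 := by
  rw [phiS_apply]
  simp [Pi.single_apply]

/-- **Graph version**: if any two vertices can be separated by at most `k` edges, the chromatic
polynomial has no zeros with `|z| ≥ 2 ^ (k + 1)`. -/
theorem graph_main [Nonempty V] (G : SimpleGraph V) [DecidableRel G.Adj] (k : ℕ)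
    (h : ∀ u v : V, u ≠ v → ∃ S : Finset V, u ∈ S ∧ v ∉ S ∧ (cut G S).card ≤ k)
    (z : ℂ) (hz : (2 : ℝ) ^ (k + 1) ≤ ‖z‖) :
    ∑ A ∈ G.edgeFinset.powerset, (-1 : ℂ) ^ A.card *
        z ^ (Fintype.card V - finrank (ZMod 2) (sp (ZMod 2) (inc : Sym2 V → V → ZMod 2) A)) ≠ 0 := by
  classical
  set V0 : Submodule (ZMod 2) (V → ZMod 2) := ⊤ ⊓ LinearMap.ker (phiS (Finset.univ : Finset V))
    with hV0
  obtain ⟨v0⟩ := ‹Nonempty V›
  have hnot : ¬ (⊤ : Submodule (ZMod 2) (V → ZMod 2)) ≤
      LinearMap.ker (phiS (Finset.univ : Finset V)) := by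
    intro hle
    have := hle (show (Pi.single v0 1 : V → ZMod 2) ∈ ⊤ from mem_top)
    rw [LinearMap.mem_ker, phiS_single, if_pos (Finset.mem_univ _)] at this
    exact one_ne_zero this
  have hfr : finrank (ZMod 2) V0 + 1 = Fintype.card V := by
    have := finrank_inf_ker (phiS (Finset.univ : Finset V)) ⊤ hnot
    rw [finrank_top, finrank_pi] at this
    exact this
  have hchar : ∀ t : ZMod 2, t + t = 0 := by decide
  have hcases : ∀ t : ZMod 2, t ≠ 0 → t = 1 := by decide
  have hE : ∀ e ∈ G.edgeFinset, (inc e : V → ZMod 2) ∈ V0 := by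
    intro e he
    refine ⟨mem_top, ?_⟩
    have hd := G.not_isDiag_of_mem_edgeFinset he
    induction e with
    | _ x y =>
      rw [Sym2.mk_isDiag_iff] at hd
      rw [SetLike.mem_coe, LinearMap.mem_ker, inc_mk hd, map_add, phiS_single, phiS_single]
      simp [hchar]
  have hcut : ∀ e ∈ G.edgeFinset, ∀ S : Finset V, phiS S (inc e) ≠ 0 → e ∈ cut G S := by
    intro e he S hne
    unfold cut
    rw [Finset.mem_filter]
    refine ⟨he, ?_⟩
    have hd := G.not_isDiag_of_mem_edgeFinset he
    induction e with
    | _ x y =>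
      rw [Sym2.mk_isDiag_iff] at hd
      rw [inc_mk hd, map_add, phiS_single, phiS_single] at hne
      by_cases hx : x ∈ S <;> by_cases hy : y ∈ S
      · exact absurd (by simp [hx, hy, hchar]) hne
      · simp [hx, hy]
      · simp [hx, hy]
      · exact absurd (by simp [hx, hy]) hne
  have hmain := (main (K := ZMod 2) k {φ | ∃ S : Finset V, (cut G S).card ≤ k ∧ φ = phiS S}
    (inc : Sym2 V → V → ZMod 2) z hz (finrank (ZMod 2) V0) V0 G.edgeFinset rfl hE ?_ ?_ ?_).1
  · have hz0 : z ≠ 0 := by
      have : (0 : ℝ) < 2 ^ (k + 1) := by positivity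
      exact norm_pos_iff.1 (this.trans_le hz)
    intro h0
    apply mul_ne_zero hz0 hmain
    rw [← h0]
    unfold Phi
    rw [Finset.mul_sum]
    refine Finset.sum_congr rfl fun A hA => ?_
    rw [Finset.mem_powerset] at hA
    have h1 : finrank (ZMod 2) (sp (ZMod 2) (inc : Sym2 V → V → ZMod 2) A) ≤
        finrank (ZMod 2) V0 := finrank_mono (sp_le fun j hj => hE j (hA hj))
    have h2 : Fintype.card V - finrank (ZMod 2) (sp (ZMod 2) (inc : Sym2 V → V → ZMod 2) A) =
        (finrank (ZMod 2) V0 -
          finrank (ZMod 2) (sp (ZMod 2) (inc : Sym2 V → V → ZMod 2) A)) + 1 := by omega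
    rw [h2, pow_succ, sup_bot_eq]
    ring
  · intro e he h0
    have hd := G.not_isDiag_of_mem_edgeFinset he
    induction e with
    | _ x y =>
      have := congrFun h0 x
      simp [inc] at this
  · intro u hu hu0
    -- the support of `u`
    set T : Finset V := Finset.univ.filter fun z => u z ≠ 0 with hT
    have hsum : ∀ S : Finset V, phiS S u = ((S ∩ T).card : ZMod 2) := by
      intro S
      have e1 : S ∩ T = S.filter fun z => u z ≠ 0 := by
        ext z
        simp [hT]
      rw [phiS_apply, e1, Finset.card_filter, Nat.cast_sum]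
      refine Finset.sum_congr rfl fun z _ => ?_
      by_cases hz0 : u z = 0
      · simp [hz0]
      · rw [if_pos hz0, Nat.cast_one]
        exact hcases _ hz0
    have hTne : T.Nonempty := by
      obtain ⟨z, hz⟩ := Function.ne_iff.1 hu0
      exact ⟨z, by simpa [hT] using hz⟩
    have hTe : Even T.card := by
      have h1 : phiS Finset.univ u = 0 := LinearMap.mem_ker.1 hu.2
      rw [hsum, Finset.univ_inter] at h1
      exact (ZMod.natCast_eq_zero_iff_even).1 h1
    obtain ⟨S, hS, hSk⟩ := odd_cut G k h _ T rfl hTne hTe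
    refine ⟨phiS S, ⟨S, hSk, rfl⟩, ?_⟩
    rw [hsum, (ZMod.natCast_eq_one_iff_odd).2 hS]
    exact one_ne_zero
  · intro φ hφ
    obtain ⟨S, hS, rfl⟩ := hφ
    refine le_trans ?_ hS
    rw [← Set.ncard_coe_finset]
    apply Set.ncard_le_ncard _ (Set.toFinite _)
    rintro e ⟨he, hne⟩
    exact hcut e he S hne

end Pool.Agent.H157R2.Chrom
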