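import Pool.Agent.H923R2.FP.Stubs

/-!
Task N4 of the project on reduced free powers of `C([0,1])`: orthonormality of the elements
`g U_m(P)`.
-/

set_option autoImplicit false

open scoped ComplexConjugate

noncomputable section

namespace Pool.Agent.H923R2.FP.T_N4

open Pool.Agent.H923R2.FP

lemma uc_comm {B : Type} [Ring B] (x : B) :
    ∀ m : ℕ, x * Uc x m = Uc x m * x ∧ x * Uc x (m + 1) = Uc x (m + 1) * x := by
  intro m
  induction m with
  | zero =>
    refine ⟨?_, rfl⟩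
    show x * 1 = 1 * x
    rw [mul_one, one_mul]
  | succ m ih =>
    refine ⟨ih.2, ?_⟩
    show x * (x * Uc x (m + 1) - Uc x m) = (x * Uc x (m + 1) - Uc x m) * x
    rw [mul_sub, sub_mul, ih.1, mul_assoc, ih.2]

lemma uc_star {B : Type} [Ring B] [StarRing B] (x : B) (hx : star x = x) :
    ∀ m : ℕ, star (Uc x m) = Uc x m ∧ star (Uc x (m + 1)) = Uc x (m + 1) := by
  intro m
  induction m with
  | zero => exact ⟨star_one _, hx⟩
  | succ m ih =>
    refine ⟨ih.2, ?_⟩
    show star (x * Uc x (m + 1) - Uc x m) = x * Uc x (m + 1) - Uc x m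
    rw [star_sub, star_mul, ih.1, ih.2, hx, (uc_comm x m).2]

section

variable {A Q R : Type} [CStarAlgebra A] [Ring Q] [StarRing Q] [Algebra ℂ Q]
  [Ring R] [StarRing R] [Algebra ℂ R]

lemma gg_star (π : Q →⋆ₐ[ℂ] A) (ρ : R →⋆ₐ[ℂ] A) (u : unitary Q) (a : unitary R) (g : F2) :
    star (GG π ρ u a g : A) = (GG π ρ u a g⁻¹ : A) := by
  rw [map_inv, ← Unitary.star_eq_inv, Unitary.coe_star]

lemma gg_mul (π : Q →⋆ₐ[ℂ] A) (ρ : R →⋆ₐ[ℂ] A) (u : unitary Q) (a : unitary R) (g h : F2) :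
    (GG π ρ u a (g * h) : A) = (GG π ρ u a g : A) * (GG π ρ u a h : A) := by
  rw [map_mul, Submonoid.coe_mul]

lemma gg_one (π : Q →⋆ₐ[ℂ] A) (ρ : R →⋆ₐ[ℂ] A) (u : unitary Q) (a : unitary R) :
    (GG π ρ u a 1 : A) = 1 := by
  rw [map_one]; rfl

lemma ring_id {B : Type} [Ring B] (V W p q g h : B) :
    V * p * W * g * (h * (V * q * W)) = V * (p * (W * g * h * V) * q * W) := by
  noncomm_ring

end

theorem t_N4 (hC1 : S_C1) (hMID : S_MID) : S_N4 := by
  intro A Q R _ _ _ _ _ _ _ τ π ρ s u a X p hτ hS hG v g g' m m' hn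
  obtain ⟨h1, h2⟩ := hMID A Q R τ π ρ s u a X p hτ hG
  obtain ⟨x, hx⟩ : ∃ x : F2, x = v⁻¹ * g⁻¹ * g' * v := ⟨_, rfl⟩
  have hxn : x.norm < p := by
    have e1 := FreeGroup.norm_mul_le (v⁻¹ * g⁻¹ * g') v
    have e2 := FreeGroup.norm_mul_le (v⁻¹ * g⁻¹) g'
    have e3 := FreeGroup.norm_mul_le v⁻¹ g⁻¹
    rw [FreeGroup.norm_inv_eq, FreeGroup.norm_inv_eq] at e3
    rw [hx]
    omega
  -- the trace
  have htr : τ (star ((GG π ρ u a g : A) * PU π ρ u a X v m) *
      ((GG π ρ u a g' : A) * PU π ρ u a X v m')) =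
      ∑ k ∈ Finset.range (min m' m + 1),
        τ (ρ (Uc X (m' + m - 2 * k)) * (GG π ρ u a x : A)) := by
    have e1 : star ((GG π ρ u a g : A) * PU π ρ u a X v m) =
        (GG π ρ u a v : A) * ρ (Uc X m) * (GG π ρ u a v⁻¹ : A) * (GG π ρ u a g⁻¹ : A) := by
      unfold PU
      rw [star_mul, star_mul, star_mul, gg_star, gg_star, gg_star, inv_inv, ← map_star,
        (uc_star X hG.Xsa m).1, mul_assoc, mul_assoc, mul_assoc, mul_assoc]
    have e2 : (GG π ρ u a v⁻¹ : A) * (GG π ρ u a g⁻¹ : A) * (GG π ρ u a g' : A) *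
        (GG π ρ u a v : A) = (GG π ρ u a x : A) := by
      rw [hx, gg_mul, gg_mul, gg_mul]
    have e3 : (GG π ρ u a v⁻¹ : A) * (GG π ρ u a v : A) = 1 := by
      rw [← gg_mul, inv_mul_cancel, gg_one]
    rw [e1]
    unfold PU
    rw [ring_id, hτ.comm, e2]
    have e4 : ρ (Uc X m) * (GG π ρ u a x : A) * ρ (Uc X m') * (GG π ρ u a v⁻¹ : A) *
        (GG π ρ u a v : A) = ρ (Uc X m) * (GG π ρ u a x : A) * ρ (Uc X m') := by
      rw [mul_assoc, e3, mul_one]
    rw [e4, hτ.comm, ← mul_assoc, ← map_mul, hC1 R X m' m, map_sum, Finset.sum_mul, map_sum]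
  rw [htr]
  by_cases hgg : g = g'
  · have hx1 : x = 1 := by
      rw [hx, hgg]
      group
    have hT : ∀ j, τ (ρ (Uc X j) * (GG π ρ u a x : A)) = if j = 0 then 1 else 0 := by
      intro j
      rw [hx1, gg_one, mul_one]
      split_ifs with hj
      · rw [hj]
        show τ (ρ (1 : R)) = 1
        rw [map_one, hτ.one]
      · exact hG.hX j hj
    simp only [hT]
    by_cases hmm : m = m'
    · rw [if_pos ⟨hgg, hmm⟩, Finset.sum_eq_single m]
      · rw [if_pos (by omega)]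
      · intro k hk hkm
        rw [Finset.mem_range] at hk
        rw [if_neg (by omega)]
      · intro hk
        exact absurd (Finset.mem_range.2 (by omega)) hk
    · rw [if_neg (fun h => hmm h.2)]
      refine Finset.sum_eq_zero fun k hk => ?_
      rw [Finset.mem_range] at hk
      rw [if_neg (by omega)]
  · rw [if_neg (fun h => hgg h.1)]
    have hx1 : x ≠ 1 := by
      intro h
      apply hgg
      rw [hx] at h
      have h3 : g⁻¹ * g' = v * (v⁻¹ * g⁻¹ * g' * v) * v⁻¹ := by group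
      rw [h] at h3
      have h4 : g⁻¹ * g' = 1 := by rw [h3]; group
      exact (inv_mul_eq_one.1 h4)
    refine Finset.sum_eq_zero fun k _ => ?_
    rcases Nat.eq_zero_or_pos (m' + m - 2 * k) with hj | hj
    · rw [hj]
      show τ (ρ (1 : R) * _) = 0
      rw [map_one, one_mul]
      obtain ⟨b, hb, hbe, -, -, hbn⟩ := h1 x hxn
      rw [← hbe]
      exact hS.free b (hbn hx1) hb.1 hb.2
    · obtain ⟨b, hb, hbe, -, -, hbn⟩ := h2 1 x (m' + m - 2 * k) (by
        rw [FreeGroup.norm_one]; omega) (by omega)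
      rw [gg_one, one_mul] at hbe
      rw [← hbe]
      exact hS.free b hbn hb.1 hb.2

end Pool.Agent.H923R2.FP.T_N4
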